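import Mathlib

set_option autoImplicit false
set_option linter.unusedSimpArgs false

namespace Pool.Agent.Results.MP_81f2fa_al.CubicSupport

open MvPolynomial

/-- `SL(2, ℂ)` -/
abbrev SL2 := Matrix.SpecialLinearGroup (Fin 2) ℂ

/-- the `2 × 2` complex matrices -/
abbrev M2 := Matrix (Fin 2) (Fin 2) ℂ

/-- `w(A, B)` for a word `w` in the free group on two letters. -/
noncomputable def evalWord (A B : SL2) (w : FreeGroup (Fin 2)) : SL2 := FreeGroup.lift ![A, B] w

/-- `f` is a trace polynomial of `w`: `tr w(A, B) = f(tr A, tr B, tr AB)`. -/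
def IsTracePoly (w : FreeGroup (Fin 2)) (f : MvPolynomial (Fin 3) ℤ) : Prop :=
  ∀ A B : SL2, Matrix.trace (evalWord A B w : M2) =
    aeval ![Matrix.trace (A : M2), Matrix.trace (B : M2), Matrix.trace ((A * B : SL2) : M2)] f

/-- the trace polynomial `f_w` -/
noncomputable def tracePoly (w : FreeGroup (Fin 2)) : MvPolynomial (Fin 3) ℤ :=
  Classical.epsilon (IsTracePoly w)

/-- the support size `N(w)` -/
noncomputable def N (w : FreeGroup (Fin 2)) : ℕ := (tracePoly w).support.card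

/-- `M(n) = max {N(w) : w cyclically reduced of length n}` -/
noncomputable def M (n : ℕ) : ℕ :=
  sSup {k | ∃ L : List (Fin 2 × Bool), FreeGroup.IsCyclicallyReduced L ∧ L.length = n ∧
    k = N (FreeGroup.mk L)}

/-! ### Existence, with degree bounds -/

section Existence

/-- coordinates with respect to `1, A, B, AB` -/
structure V where
  c0 : MvPolynomial (Fin 3) ℤ
  c1 : MvPolynomial (Fin 3) ℤ
  c2 : MvPolynomial (Fin 3) ℤ
  c3 : MvPolynomial (Fin 3) ℤ

/-- right multiplication by `A` -/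
noncomputable def V.mulA (v : V) : V where
  c0 := -v.c1 + (X 2 - X 0 * X 1) * v.c2 - X 1 * v.c3
  c1 := v.c0 + X 0 * v.c1 + X 1 * v.c2 + X 2 * v.c3
  c2 := X 0 * v.c2 + v.c3
  c3 := -v.c2

/-- right multiplication by `B` -/
noncomputable def V.mulB (v : V) : V where
  c0 := -v.c2
  c1 := -v.c3
  c2 := v.c0 + X 1 * v.c2
  c3 := v.c1 + X 1 * v.c3

/-- right multiplication by `A⁻¹ = x - A` -/
noncomputable def V.mulA' (v : V) : V where
  c0 := X 0 * v.c0 - v.mulA.c0
  c1 := X 0 * v.c1 - v.mulA.c1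
  c2 := X 0 * v.c2 - v.mulA.c2
  c3 := X 0 * v.c3 - v.mulA.c3

/-- right multiplication by `B⁻¹ = y - B` -/
noncomputable def V.mulB' (v : V) : V where
  c0 := X 1 * v.c0 - v.mulB.c0
  c1 := X 1 * v.c1 - v.mulB.c1
  c2 := X 1 * v.c2 - v.mulB.c2
  c3 := X 1 * v.c3 - v.mulB.c3

/-- right multiplication by a letter -/
noncomputable def V.step (v : V) (s : Fin 2 × Bool) : V :=
  if s.1 = 0 then (if s.2 then v.mulA else v.mulA') else (if s.2 then v.mulB else v.mulB')

/-- evaluation -/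
noncomputable def V.ev (v : V) (A B : SL2) : M2 :=
  (aeval ![Matrix.trace (A : M2), Matrix.trace (B : M2), Matrix.trace ((A * B : SL2) : M2)] v.c0 : ℂ)
    • (1 : M2) +
  (aeval ![Matrix.trace (A : M2), Matrix.trace (B : M2), Matrix.trace ((A * B : SL2) : M2)] v.c1 : ℂ)
    • (A : M2) +
  (aeval ![Matrix.trace (A : M2), Matrix.trace (B : M2), Matrix.trace ((A * B : SL2) : M2)] v.c2 : ℂ)
    • (B : M2) +
  (aeval ![Matrix.trace (A : M2), Matrix.trace (B : M2), Matrix.trace ((A * B : SL2) : M2)] v.c3 : ℂ)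
    • ((A : M2) * (B : M2))

lemma ch (A : SL2) : (A : M2) * (A : M2) = Matrix.trace (A : M2) • (A : M2) - 1 := by
  have h : (A : M2) 0 0 * (A : M2) 1 1 - (A : M2) 0 1 * (A : M2) 1 0 = 1 := by
    rw [← Matrix.det_fin_two, A.det_coe]
  ext i j
  fin_cases i <;> fin_cases j <;>
    simp [Matrix.mul_apply, Matrix.trace_fin_two, Fin.sum_univ_two]
  · linear_combination (-1) * h
  · ring
  · ring
  · linear_combination (-1) * h

lemma ch2 (A B : M2) : B * A = -(A * B) + Matrix.trace B • A + Matrix.trace A • B +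
    (Matrix.trace (A * B) - Matrix.trace A * Matrix.trace B) • (1 : M2) := by
  ext i j
  fin_cases i <;> fin_cases j <;>
    simp [Matrix.mul_apply, Matrix.trace_fin_two, Fin.sum_univ_two] <;> ring

lemma ch3 (A B : SL2) : (A : M2) * ((B : M2) * (A : M2)) =
    Matrix.trace ((A : M2) * (B : M2)) • (A : M2) + (B : M2) - Matrix.trace (B : M2) • (1 : M2) := by
  rw [ch2 A B, mul_add, mul_add, mul_add, mul_neg, ← mul_assoc, mul_smul_comm, mul_smul_comm,
    mul_smul_comm, ch A, sub_mul, smul_mul_assoc, mul_one, one_mul]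
  module

lemma inv_eq (A : SL2) : ((A⁻¹ : SL2) : M2) = Matrix.trace (A : M2) • (1 : M2) - (A : M2) := by
  rw [Matrix.SpecialLinearGroup.coe_inv, Matrix.adjugate_fin_two]
  ext i j
  fin_cases i <;> fin_cases j <;> simp [Matrix.trace_fin_two]

lemma ev_mulA (v : V) (A B : SL2) : v.mulA.ev A B = v.ev A B * (A : M2) := by
  unfold V.ev V.mulA
  simp only [map_add, map_sub, map_mul, map_neg, aeval_X, Matrix.SpecialLinearGroup.coe_mul]
  generalize (aeval _ v.c0 : ℂ) = a0
  generalize (aeval _ v.c1 : ℂ) = a1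
  generalize (aeval _ v.c2 : ℂ) = a2
  generalize (aeval _ v.c3 : ℂ) = a3
  rw [add_mul, add_mul, add_mul, smul_mul_assoc, smul_mul_assoc, smul_mul_assoc, smul_mul_assoc,
    one_mul, mul_assoc (A : M2), ch3, ch A, ch2 A B]
  simp only [Matrix.cons_val_zero, Matrix.cons_val_one, Matrix.cons_val]
  module

lemma ev_mulB (v : V) (A B : SL2) : v.mulB.ev A B = v.ev A B * (B : M2) := by
  unfold V.ev V.mulB
  simp only [map_add, map_sub, map_mul, map_neg, aeval_X, Matrix.SpecialLinearGroup.coe_mul]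
  generalize (aeval _ v.c0 : ℂ) = a0
  generalize (aeval _ v.c1 : ℂ) = a1
  generalize (aeval _ v.c2 : ℂ) = a2
  generalize (aeval _ v.c3 : ℂ) = a3
  rw [add_mul, add_mul, add_mul, smul_mul_assoc, smul_mul_assoc, smul_mul_assoc, smul_mul_assoc,
    one_mul, mul_assoc (A : M2), ch B, mul_sub, mul_smul_comm, mul_one]
  simp only [Matrix.cons_val_zero, Matrix.cons_val_one, Matrix.cons_val]
  module

lemma ev_mulA' (v : V) (A B : SL2) : v.mulA'.ev A B = v.ev A B * ((A⁻¹ : SL2) : M2) := by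
  have h := ev_mulA v A B
  rw [inv_eq, mul_sub, ← h, mul_smul_comm, mul_one]
  unfold V.ev V.mulA'
  simp only [map_sub, map_mul, aeval_X, Matrix.cons_val_zero]
  module

lemma ev_mulB' (v : V) (A B : SL2) : v.mulB'.ev A B = v.ev A B * ((B⁻¹ : SL2) : M2) := by
  have h := ev_mulB v A B
  rw [inv_eq, mul_sub, ← h, mul_smul_comm, mul_one]
  unfold V.ev V.mulB'
  simp only [map_sub, map_mul, aeval_X, Matrix.cons_val_one, Matrix.cons_val_zero]
  module

lemma ev_step (v : V) (s : Fin 2 × Bool) (A B : SL2) : (v.step s).ev A B =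
    v.ev A B * ((bif s.2 then (![A, B] : Fin 2 → SL2) s.1 else (![A, B] s.1)⁻¹ : SL2) : M2) := by
  obtain ⟨i, b⟩ := s
  fin_cases i <;> cases b <;>
    simp [V.step, ev_mulA, ev_mulB, ev_mulA', ev_mulB', -Matrix.SpecialLinearGroup.coe_inv]

lemma ev_foldl (L : List (Fin 2 × Bool)) (v : V) (A B : SL2) :
    (L.foldl V.step v).ev A B = v.ev A B * ((evalWord A B (FreeGroup.mk L) : SL2) : M2) := by
  unfold evalWord
  rw [FreeGroup.lift_mk]
  induction L generalizing v with
  | nil => simp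
  | cons s L ih =>
    rw [List.foldl_cons, ih, ev_step, List.map_cons, List.prod_cons,
      Matrix.SpecialLinearGroup.coe_mul, mul_assoc]

/-- the unit vector -/
noncomputable def V.one : V := ⟨1, 0, 0, 0⟩

/-- the polynomial of a list of letters -/
noncomputable def polyOf (L : List (Fin 2 × Bool)) : MvPolynomial (Fin 3) ℤ :=
  2 * (L.foldl V.step V.one).c0 + X 0 * (L.foldl V.step V.one).c1 +
    X 1 * (L.foldl V.step V.one).c2 + X 2 * (L.foldl V.step V.one).c3

lemma isTracePoly_polyOf (L : List (Fin 2 × Bool)) : IsTracePoly (FreeGroup.mk L) (polyOf L) := by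
  intro A B
  have h := ev_foldl L V.one A B
  have h1 : V.one.ev A B = 1 := by
    simp [V.ev, V.one]
  rw [h1, one_mul] at h
  rw [← h]
  unfold V.ev polyOf
  simp only [Matrix.trace_add, Matrix.trace_smul, Matrix.trace_one, map_add, map_mul, aeval_X,
    Matrix.SpecialLinearGroup.coe_mul, map_ofNat, Fintype.card_fin, Nat.cast_ofNat,
    Matrix.cons_val_zero, Matrix.cons_val_one, Matrix.cons_val, smul_eq_mul]
  ring

end Existence

/-! ### Degree bound -/

section Degree

/-- all partial degrees at most `k` -/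
def Deg (k : ℕ) (f : MvPolynomial (Fin 3) ℤ) : Prop := ∀ i, degreeOf i f ≤ k

lemma Deg.add {k : ℕ} {f g : MvPolynomial (Fin 3) ℤ} (hf : Deg k f) (hg : Deg k g) :
    Deg k (f + g) := fun i => le_trans (degreeOf_add_le i f g) (max_le (hf i) (hg i))

lemma Deg.neg {k : ℕ} {f : MvPolynomial (Fin 3) ℤ} (hf : Deg k f) : Deg k (-f) := fun i => by
  rw [degreeOf_neg]
  exact hf i

lemma Deg.sub {k : ℕ} {f g : MvPolynomial (Fin 3) ℤ} (hf : Deg k f) (hg : Deg k g) :
    Deg k (f - g) := by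
  rw [sub_eq_add_neg]
  exact hf.add hg.neg

lemma Deg.mul {k l : ℕ} {f g : MvPolynomial (Fin 3) ℤ} (hf : Deg k f) (hg : Deg l g) :
    Deg (k + l) (f * g) := fun i => le_trans (degreeOf_mul_le i f g) (add_le_add (hf i) (hg i))

lemma Deg.mono {k l : ℕ} {f : MvPolynomial (Fin 3) ℤ} (hf : Deg k f) (h : k ≤ l) : Deg l f :=
  fun i => le_trans (hf i) h

lemma Deg.varX (j : Fin 3) : Deg 1 (X j : MvPolynomial (Fin 3) ℤ) := fun i => by
  classical
  rw [degreeOf_X]
  split_ifs <;> omega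

lemma Deg.mulX {k : ℕ} {f : MvPolynomial (Fin 3) ℤ} (hf : Deg k f) (j : Fin 3) :
    Deg (k + 1) (X j * f) := by
  rw [add_comm]
  exact (Deg.varX j).mul hf

lemma Deg.zxy : Deg 1 (X 2 - X 0 * X 1 : MvPolynomial (Fin 3) ℤ) := by
  refine (Deg.varX 2).sub fun i => ?_
  refine le_trans (degreeOf_mul_le i _ _) ?_
  classical
  rw [degreeOf_X, degreeOf_X]
  fin_cases i <;> simp

/-- all coordinates have partial degrees at most `k` -/
def VDeg (k : ℕ) (v : V) : Prop := Deg k v.c0 ∧ Deg k v.c1 ∧ Deg k v.c2 ∧ Deg k v.c3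

lemma VDeg.mulA {k : ℕ} {v : V} (h : VDeg k v) : VDeg (k + 1) v.mulA := by
  obtain ⟨h0, h1, h2, h3⟩ := h
  have hk : k ≤ k + 1 := Nat.le_succ k
  refine ⟨?_, ?_, ?_, ?_⟩
  · refine ((h1.neg.mono hk).add ?_).sub (h3.mulX 1)
    rw [add_comm k 1]
    exact Deg.zxy.mul h2
  · exact (((h0.mono hk).add (h1.mulX 0)).add (h2.mulX 1)).add (h3.mulX 2)
  · exact (h2.mulX 0).add (h3.mono hk)
  · exact h2.neg.mono hk

lemma VDeg.mulB {k : ℕ} {v : V} (h : VDeg k v) : VDeg (k + 1) v.mulB := by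
  obtain ⟨h0, h1, h2, h3⟩ := h
  have hk : k ≤ k + 1 := Nat.le_succ k
  exact ⟨h2.neg.mono hk, h3.neg.mono hk, (h0.mono hk).add (h2.mulX 1),
    (h1.mono hk).add (h3.mulX 1)⟩

lemma VDeg.step {k : ℕ} {v : V} (h : VDeg k v) (s : Fin 2 × Bool) : VDeg (k + 1) (v.step s) := by
  have hA := h.mulA
  have hB := h.mulB
  obtain ⟨a0, a1, a2, a3⟩ := hA
  obtain ⟨b0, b1, b2, b3⟩ := hB
  obtain ⟨h0, h1, h2, h3⟩ := h
  unfold V.step
  split_ifs
  · exact ⟨a0, a1, a2, a3⟩
  · exact ⟨(h0.mulX 0).sub a0, (h1.mulX 0).sub a1, (h2.mulX 0).sub a2, (h3.mulX 0).sub a3⟩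
  · exact ⟨b0, b1, b2, b3⟩
  · exact ⟨(h0.mulX 1).sub b0, (h1.mulX 1).sub b1, (h2.mulX 1).sub b2, (h3.mulX 1).sub b3⟩

lemma VDeg.foldl (L : List (Fin 2 × Bool)) {k : ℕ} {v : V} (h : VDeg k v) :
    VDeg (k + L.length) (L.foldl V.step v) := by
  induction L generalizing k v with
  | nil => exact h
  | cons s L ih =>
    rw [List.foldl_cons, List.length_cons, show k + (L.length + 1) = (k + 1) + L.length by ring]
    exact ih (h.step s)

lemma deg_polyOf (L : List (Fin 2 × Bool)) : Deg (L.length + 1) (polyOf L) := by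
  have h1 : VDeg 0 V.one := by
    refine ⟨fun i => ?_, fun i => ?_, fun i => ?_, fun i => ?_⟩ <;> simp [V.one]
  obtain ⟨a0, a1, a2, a3⟩ := VDeg.foldl L h1
  rw [zero_add] at a0 a1 a2 a3
  unfold polyOf
  refine ((Deg.add ?_ (a1.mulX 0)).add (a2.mulX 1)).add (a3.mulX 2)
  rw [two_mul]
  exact (a0.add a0).mono (Nat.le_succ _)

lemma card_support_le {k : ℕ} {f : MvPolynomial (Fin 3) ℤ} (hf : Deg k f) :
    f.support.card ≤ (k + 1) ^ 3 := by
  classical
  have h1 : f.support.card ≤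
      (Finset.range (k + 1) ×ˢ (Finset.range (k + 1) ×ˢ Finset.range (k + 1))).card := by
    apply Finset.card_le_card_of_injOn (fun m => (m 0, m 1, m 2))
    · intro m hm
      have h := fun i => degreeOf_le_iff.mp (hf i) m hm
      simp only [Finset.coe_product, Set.mem_prod, Finset.coe_range, Set.mem_Iio]
      exact ⟨Nat.lt_succ_of_le (h 0), Nat.lt_succ_of_le (h 1), Nat.lt_succ_of_le (h 2)⟩
    · intro m _ m' _ h
      simp only [Prod.mk.injEq] at h
      ext i
      fin_cases i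
      · exact h.1
      · exact h.2.1
      · exact h.2.2
  refine le_trans h1 (le_of_eq ?_)
  simp only [Finset.card_product, Finset.card_range]
  ring

end Degree

/-! ### Uniqueness -/

section Uniqueness

lemma fricke (x y z : ℂ) : ∃ A B : SL2, Matrix.trace (A : M2) = x ∧ Matrix.trace (B : M2) = y ∧
    Matrix.trace ((A * B : SL2) : M2) = z := by
  obtain ⟨t, ht⟩ : ∃ t : ℂ, t ^ 2 - z * t + 1 = 0 := by
    obtain ⟨s, hs⟩ := IsAlgClosed.exists_pow_nat_eq (z ^ 2 - 4) (n := 2) (by norm_num)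
    refine ⟨(z + s) / 2, ?_⟩
    linear_combination (1 / 4) * hs
  have ht0 : t ≠ 0 := by
    rintro rfl
    norm_num at ht
  refine ⟨⟨!![x, -1; 1, 0], ?_⟩, ⟨!![0, t; -t⁻¹, y], ?_⟩, ?_, ?_, ?_⟩
  · simp [Matrix.det_fin_two]
  · simp [Matrix.det_fin_two, ht0]
  · simp [Matrix.trace_fin_two]
  · simp [Matrix.trace_fin_two]
  · show Matrix.trace ((!![x, -1; 1, 0] : M2) * !![0, t; -t⁻¹, y]) = z
    rw [Matrix.mul_fin_two, Matrix.trace_fin_two]
    simp
    field_simp
    linear_combination ht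

lemma unique {w : FreeGroup (Fin 2)} {f g : MvPolynomial (Fin 3) ℤ} (hf : IsTracePoly w f)
    (hg : IsTracePoly w g) : f = g := by
  apply MvPolynomial.map_injective (Int.castRingHom ℂ) Int.cast_injective
  apply MvPolynomial.funext
  intro v
  obtain ⟨A, B, h0, h1, h2⟩ := fricke (v 0) (v 1) (v 2)
  have e1 := hf A B
  have e2 := hg A B
  have hv : v = ![Matrix.trace (A : M2), Matrix.trace (B : M2),
      Matrix.trace ((A * B : SL2) : M2)] := by
    ext i
    fin_cases i
    · exact h0.symm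
    · exact h1.symm
    · exact h2.symm
  rw [e1] at e2
  rw [hv, ← MvPolynomial.eval₂_eq_eval_map, ← MvPolynomial.eval₂_eq_eval_map]
  exact e2

lemma isTracePoly_tracePoly (w : FreeGroup (Fin 2)) : IsTracePoly w (tracePoly w) := by
  unfold tracePoly
  apply Classical.epsilon_spec (p := IsTracePoly w)
  have h := isTracePoly_polyOf w.toWord
  rw [FreeGroup.mk_toWord] at h
  exact ⟨_, h⟩

lemma tracePoly_eq {w : FreeGroup (Fin 2)} {f : MvPolynomial (Fin 3) ℤ} (hf : IsTracePoly w f) :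
    tracePoly w = f := unique (isTracePoly_tracePoly w) hf

lemma N_le (L : List (Fin 2 × Bool)) : N (FreeGroup.mk L) ≤ (L.length + 2) ^ 3 := by
  unfold N
  rw [tracePoly_eq (isTracePoly_polyOf L)]
  exact card_support_le (deg_polyOf L)

end Uniqueness

/-! ### The lower bound -/

section Lower

/-- the polynomials with `A^(n+1) = s_(n+1)(tr A) A - s_n(tr A)` -/
noncomputable def s : ℕ → Polynomial ℤ
  | 0 => 0
  | 1 => 1
  | n + 2 => Polynomial.X * s (n + 1) - s n

lemma s_add_two (n : ℕ) : s (n + 2) = Polynomial.X * s (n + 1) - s n := rfl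

/-- absolute values of the coefficients -/
def h : ℕ → ℕ → ℕ
  | 0, _ => 0
  | 1, m => if m = 0 then 1 else 0
  | n + 2, 0 => h n 0
  | n + 2, m + 1 => h (n + 1) m + h n (m + 1)

/-- the real part of `i^k` -/
def sg (k : ℕ) : ℤ := if k % 4 = 0 then 1 else if k % 4 = 2 then -1 else 0

lemma sg_add_two (k : ℕ) : sg (k + 2) = -sg k := by
  unfold sg
  have h4 : k % 4 < 4 := Nat.mod_lt _ (by norm_num)
  rcases (by omega : k % 4 = 0 ∨ k % 4 = 1 ∨ k % 4 = 2 ∨ k % 4 = 3) with h | h | h | h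
  · rw [if_neg (by omega), if_pos (by omega), if_pos h]
  · rw [if_neg (by omega), if_neg (by omega), if_neg (by omega), if_neg (by omega), neg_zero]
  · rw [if_pos (by omega), if_neg (by omega), if_pos h, neg_neg]
  · rw [if_neg (by omega), if_neg (by omega), if_neg (by omega), if_neg (by omega), neg_zero]

lemma sg_odd {k : ℕ} (hk : k % 2 = 1) : sg k = 0 := by
  unfold sg
  rw [if_neg (by omega), if_neg (by omega)]

lemma sg_even {k : ℕ} (hk : k % 2 = 0) : sg k ≠ 0 := by
  unfold sg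
  by_cases h : k % 4 = 0
  · rw [if_pos h]; norm_num
  · rw [if_neg h, if_pos (by omega)]; norm_num

lemma coeff_s : ∀ n m : ℕ, (s n).coeff m = sg (n + 3 + 3 * m) * h n m
  | 0, m => by simp [s, h]
  | 1, m => by
    rcases Nat.eq_zero_or_pos m with hm | hm
    · subst hm
      simp [s, h, sg]
    · have hm' : m ≠ 0 := by omega
      simp [s, h, hm', Polynomial.coeff_one]
  | n + 2, 0 => by
    rw [s_add_two, Polynomial.coeff_sub, Polynomial.mul_coeff_zero, Polynomial.coeff_X_zero,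
      zero_mul, zero_sub, coeff_s n 0]
    have e1 : sg (n + 2 + 3 + 3 * 0) = -sg (n + 3 + 3 * 0) := sg_add_two (n + 3 + 3 * 0)
    rw [e1]
    simp only [h]
    ring
  | n + 2, m + 1 => by
    rw [s_add_two, Polynomial.coeff_sub, Polynomial.coeff_X_mul, coeff_s (n + 1) m,
      coeff_s n (m + 1)]
    have e1 : sg (n + 3 + 3 * (m + 1)) = -sg (n + 1 + 3 + 3 * m) := by
      rw [show n + 3 + 3 * (m + 1) = (n + 1 + 3 + 3 * m) + 2 by ring]
      exact sg_add_two _
    have e2 : sg (n + 2 + 3 + 3 * (m + 1)) = sg (n + 1 + 3 + 3 * m) := by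
      rw [show n + 2 + 3 + 3 * (m + 1) = (n + 3 + 3 * (m + 1)) + 2 by ring]
      rw [sg_add_two, e1, neg_neg]
    rw [e1, e2]
    simp only [h]
    push_cast
    ring

lemma h_pos : ∀ n m : ℕ, m ≤ n → (n - m) % 2 = 0 → 0 < h (n + 1) m
  | 0, m, h1, _ => by
    have : m = 0 := by omega
    subst this
    simp [h]
  | 1, m, h1, h2 => by
    have : m = 1 := by omega
    subst this
    simp [h]
  | n + 2, 0, _, h2 => by
    simp only [h]
    exact h_pos n 0 (Nat.zero_le _) (by omega)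
  | n + 2, m + 1, h1, h2 => by
    simp only [h]
    have := h_pos (n + 1) m (by omega) (by omega)
    omega

lemma pow_eq (A : SL2) (n : ℕ) : (A : M2) ^ (n + 1) =
    (Polynomial.aeval (Matrix.trace (A : M2)) (s (n + 1)) : ℂ) • (A : M2) -
      (Polynomial.aeval (Matrix.trace (A : M2)) (s n) : ℂ) • (1 : M2) := by
  induction n with
  | zero => simp [s]
  | succ n ih =>
    rw [pow_succ, ih, sub_mul, smul_mul_assoc, smul_mul_assoc, ch A, one_mul, s_add_two, map_sub,
      map_mul, Polynomial.aeval_X]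
    module

/-- a univariate polynomial in the `i`-th variable -/
noncomputable def E (i : Fin 3) (P : Polynomial ℤ) : MvPolynomial (Fin 3) ℤ :=
  Polynomial.aeval (X i : MvPolynomial (Fin 3) ℤ) P

lemma E_add (i : Fin 3) (P Q : Polynomial ℤ) : E i (P + Q) = E i P + E i Q := map_add _ _ _

lemma coeff_E (m : Fin 3 →₀ ℕ) (P Q R : Polynomial ℤ) :
    coeff m (E 0 P * E 1 Q * E 2 R) = P.coeff (m 0) * Q.coeff (m 1) * R.coeff (m 2) := by
  induction P using Polynomial.induction_on' with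
  | add P P' h1 h2 => rw [E_add, add_mul, add_mul, coeff_add, h1, h2, Polynomial.coeff_add]; ring
  | monomial a ca =>
    induction Q using Polynomial.induction_on' with
    | add P P' h1 h2 =>
      rw [E_add, mul_add, add_mul, coeff_add, h1, h2, Polynomial.coeff_add]; ring
    | monomial b cb =>
      induction R using Polynomial.induction_on' with
      | add P P' h1 h2 => rw [E_add, mul_add, coeff_add, h1, h2, Polynomial.coeff_add]; ring
      | monomial c cc =>
        have e : E 0 (Polynomial.monomial a ca) * E 1 (Polynomial.monomial b cb) *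
            E 2 (Polynomial.monomial c cc) =
            monomial (Finsupp.single 0 a + Finsupp.single 1 b + Finsupp.single 2 c)
              (ca * cb * cc) := by
          have h1 : ∀ (i : Fin 3) (a : ℕ) (c : ℤ), E i (Polynomial.monomial a c) =
              monomial (Finsupp.single i a) c := by
            intro i a c
            unfold E
            rw [Polynomial.aeval_monomial, MvPolynomial.X_pow_eq_monomial,
              MvPolynomial.algebraMap_eq, MvPolynomial.C_mul_monomial, mul_one]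
          rw [h1, h1, h1, MvPolynomial.monomial_mul, MvPolynomial.monomial_mul]
        rw [e, MvPolynomial.coeff_monomial, Polynomial.coeff_monomial, Polynomial.coeff_monomial,
          Polynomial.coeff_monomial]
        by_cases hm : Finsupp.single 0 a + Finsupp.single 1 b + Finsupp.single 2 c = m
        · rw [if_pos hm]
          subst hm
          simp
        · rw [if_neg hm]
          have : ¬ (a = m 0 ∧ b = m 1 ∧ c = m 2) := by
            rintro ⟨h1, h2, h3⟩
            apply hm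
            ext i
            fin_cases i
            · simpa using h1
            · simpa using h2
            · simpa using h3
          by_cases h1 : a = m 0
          · by_cases h2 : b = m 1
            · have h3 : c ≠ m 2 := fun h3 => this ⟨h1, h2, h3⟩
              simp [h3]
            · simp [h2]
          · simp [h1]

/-- the word `a^p b^q (ab)^r` -/
def word (p q r : ℕ) : List (Fin 2 × Bool) :=
  List.replicate p (0, true) ++ (List.replicate q (1, true) ++
    (List.replicate r [((0 : Fin 2), true), ((1 : Fin 2), true)]).flatten)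

lemma word_length (p q r : ℕ) : (word p q r).length = p + q + 2 * r := by
  simp [word, List.length_flatten]
  ring

lemma word_pos (p q r : ℕ) : ∀ x ∈ word p q r, x.2 = true := by
  intro x hx
  simp only [word, List.mem_append, List.mem_replicate, List.mem_flatten] at hx
  rcases hx with hx | hx | ⟨l, hl, hx⟩
  · rw [hx.2]
  · rw [hx.2]
  · rw [hl.2] at hx
    simp at hx
    rcases hx with hx | hx <;> rw [hx]

lemma word_cyc (p q r : ℕ) : FreeGroup.IsCyclicallyReduced (word p q r) := by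
  have hp := word_pos p q r
  refine ⟨?_, ?_⟩
  · unfold FreeGroup.IsReduced
    apply List.Pairwise.isChain
    rw [List.pairwise_iff_forall_sublist]
    intro a b hab _
    have ha : a ∈ word p q r := hab.subset (by simp)
    have hb : b ∈ word p q r := hab.subset (by simp)
    rw [hp a ha, hp b hb]
  · intro a ha b hb _
    rw [hp a (List.mem_of_getLast? ha), hp b (List.mem_of_head? hb)]

lemma evalWord_word (A B : SL2) (p q r : ℕ) :
    evalWord A B (FreeGroup.mk (word p q r)) = A ^ p * B ^ q * (A * B) ^ r := by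
  unfold evalWord word
  rw [FreeGroup.lift_mk, List.map_append, List.prod_append, List.map_append, List.prod_append,
    List.map_replicate, List.prod_replicate, List.map_replicate, List.prod_replicate]
  have h1 : (List.map (fun x : Fin 2 × Bool => bif x.2 then (![A, B] : Fin 2 → SL2) x.1
      else (![A, B] x.1)⁻¹) (List.replicate r [((0 : Fin 2), true), ((1 : Fin 2), true)]).flatten).prod =
      (A * B) ^ r := by
    induction r with
    | zero => simp
    | succ r ih =>
      rw [List.replicate_succ, List.flatten_cons, List.map_append, List.prod_append, ih, pow_succ']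
      simp
  rw [h1]
  simp [mul_assoc]

/-- the trace polynomial of `a^(P+2) b^(Q+2) (ab)^(R+1)` -/
noncomputable def F (P Q R : ℕ) : MvPolynomial (Fin 3) ℤ :=
  E 0 (s (P + 2)) * E 1 (s (Q + 2)) * E 2 (Polynomial.X * s (R + 2) - 2 * s (R + 1))
  - E 0 (Polynomial.X * s (P + 2)) * E 1 (s (Q + 1)) * E 2 (Polynomial.X * s (R + 1) - s R)
  + E 0 (s (P + 2)) * E 1 (Polynomial.X * s (Q + 1)) * E 2 (s (R + 1))
  - E 0 (s (P + 1)) * E 1 (Polynomial.X * s (Q + 2)) * E 2 (Polynomial.X * s (R + 1) - s R)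
  + E 0 (Polynomial.X * s (P + 1)) * E 1 (s (Q + 2)) * E 2 (s (R + 1))
  + E 0 (s (P + 1)) * E 1 (s (Q + 1)) * E 2 (Polynomial.X * s (R + 1) - 2 * s R)

lemma aeval_E (v : Fin 3 → ℂ) (i : Fin 3) (P : Polynomial ℤ) :
    aeval v (E i P) = Polynomial.aeval (v i) P := by
  unfold E
  rw [← Polynomial.aeval_algHom_apply, aeval_X]

lemma tr1 (M : SL2) : Matrix.trace ((M : M2) * (M : M2)) = Matrix.trace (M : M2) ^ 2 - 2 := by
  rw [ch M, Matrix.trace_sub, Matrix.trace_smul, Matrix.trace_one, smul_eq_mul]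
  simp
  ring

lemma tr2 (A B : SL2) : Matrix.trace ((A : M2) * ((A : M2) * (B : M2))) =
    Matrix.trace (A : M2) * Matrix.trace ((A : M2) * (B : M2)) - Matrix.trace (B : M2) := by
  rw [← mul_assoc, ch A, sub_mul, smul_mul_assoc, one_mul, Matrix.trace_sub, Matrix.trace_smul,
    smul_eq_mul]

lemma tr3 (A B : SL2) : Matrix.trace ((B : M2) * ((A : M2) * (B : M2))) =
    Matrix.trace (B : M2) * Matrix.trace ((A : M2) * (B : M2)) - Matrix.trace (A : M2) := by
  rw [Matrix.trace_mul_comm, mul_assoc, ch B, mul_sub, mul_smul_comm, mul_one, Matrix.trace_sub,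
    Matrix.trace_smul, smul_eq_mul]

lemma isTracePoly_F (P Q R : ℕ) :
    IsTracePoly (FreeGroup.mk (word (P + 2) (Q + 2) (R + 1))) (F P Q R) := by
  intro A B
  rw [evalWord_word]
  unfold F
  simp only [map_add, map_sub, map_mul, aeval_E, Polynomial.aeval_X, map_ofNat]
  rw [Matrix.SpecialLinearGroup.coe_mul, Matrix.SpecialLinearGroup.coe_mul,
    Matrix.SpecialLinearGroup.coe_pow, Matrix.SpecialLinearGroup.coe_pow,
    Matrix.SpecialLinearGroup.coe_pow, pow_eq A (P + 1), pow_eq B (Q + 1), pow_eq (A * B) R]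
  simp only [Matrix.cons_val_zero, Matrix.cons_val_one, Matrix.cons_val]
  have t1 := tr1 (A * B)
  have t2 := tr2 A B
  have t3 := tr3 A B
  have e := s_add_two R
  have e' : (Polynomial.aeval (Matrix.trace ((A * B : SL2) : M2)) (s (R + 2)) : ℂ) =
      Matrix.trace ((A * B : SL2) : M2) *
        Polynomial.aeval (Matrix.trace ((A * B : SL2) : M2)) (s (R + 1)) -
        Polynomial.aeval (Matrix.trace ((A * B : SL2) : M2)) (s R) := by
    rw [e, map_sub, map_mul, Polynomial.aeval_X]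
  rw [e']
  rw [Matrix.SpecialLinearGroup.coe_mul] at *
  generalize (Polynomial.aeval (Matrix.trace (A : M2)) (s (P + 1 + 1)) : ℂ) = a1 at *
  generalize (Polynomial.aeval (Matrix.trace (A : M2)) (s (P + 1)) : ℂ) = a0 at *
  generalize (Polynomial.aeval (Matrix.trace (B : M2)) (s (Q + 1 + 1)) : ℂ) = b1 at *
  generalize (Polynomial.aeval (Matrix.trace (B : M2)) (s (Q + 1)) : ℂ) = b0 at *
  generalize (Polynomial.aeval (Matrix.trace ((A : M2) * (B : M2))) (s (R + 1)) : ℂ) = c1 at *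
  generalize (Polynomial.aeval (Matrix.trace ((A : M2) * (B : M2))) (s R) : ℂ) = c0 at *
  simp only [sub_mul, mul_sub, smul_mul_assoc, mul_smul_comm, one_mul, mul_one,
    Matrix.trace_sub, Matrix.trace_smul, smul_eq_mul, Matrix.trace_one, Fintype.card_fin]
  rw [t1, t2, t3]
  push_cast
  ring

lemma Xs (n : ℕ) : Polynomial.X * s (n + 1) = s (n + 2) + s n := by
  rw [s_add_two]
  ring

lemma coeff_F (P Q R : ℕ) (m : Fin 3 →₀ ℕ) (γ : ℕ) (hγ : m 2 = γ + 1)
    (hα : (m 0 + P + 1) % 2 = 0) :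
    coeff m (F P Q R) = (s (P + 2)).coeff (m 0) * (s (Q + 2)).coeff (m 1) * (s (R + 2)).coeff γ +
      (s (P + 2)).coeff (m 0) * (s Q).coeff (m 1) * (s (R + 1)).coeff (γ + 1) +
      (s P).coeff (m 0) * (s (Q + 2)).coeff (m 1) * (s (R + 1)).coeff (γ + 1) := by
  have z1 : (s (P + 1)).coeff (m 0) = 0 := by
    rw [coeff_s, sg_odd (by omega), zero_mul]
  have z2 : (Polynomial.X * s (P + 2)).coeff (m 0) = 0 := by
    rcases Nat.eq_zero_or_pos (m 0) with h0 | h0
    · rw [h0, Polynomial.mul_coeff_zero, Polynomial.coeff_X_zero, zero_mul]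
    · obtain ⟨a, ha⟩ := Nat.exists_eq_succ_of_ne_zero (Nat.pos_iff_ne_zero.mp h0)
      rw [ha, Nat.succ_eq_add_one, Polynomial.coeff_X_mul, coeff_s, sg_odd (by omega), zero_mul]
  unfold F
  rw [coeff_add, coeff_add, coeff_sub, coeff_add, coeff_sub, coeff_E, coeff_E, coeff_E, coeff_E,
    coeff_E, coeff_E, z1, z2, Xs Q, Xs P, hγ, Polynomial.coeff_sub, Polynomial.coeff_X_mul,
    Polynomial.coeff_add, Polynomial.coeff_add]
  have e2 : (2 * s (R + 1)).coeff (γ + 1) = 2 * (s (R + 1)).coeff (γ + 1) := by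
    rw [← Polynomial.C_ofNat, Polynomial.coeff_C_mul]
  rw [e2]
  ring

lemma coeff_F_ne (P Q R : ℕ) (m : Fin 3 →₀ ℕ) (γ : ℕ) (hγ : m 2 = γ + 1)
    (hα : (m 0 + P + 1) % 2 = 0) (hα' : m 0 ≤ P + 1)
    (hβ : (m 1 + Q + 1) % 2 = 0) (hβ' : m 1 ≤ Q + 1)
    (hγ1 : (γ + R + 1) % 2 = 0) (hγ2 : γ ≤ R + 1) : coeff m (F P Q R) ≠ 0 := by
  rw [coeff_F P Q R m γ hγ hα]
  simp only [coeff_s]
  have e1 : sg (P + 2 + 3 + 3 * m 0) = -sg (P + 3 + 3 * m 0) := by
    rw [show P + 2 + 3 + 3 * m 0 = (P + 3 + 3 * m 0) + 2 by ring, sg_add_two]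
  have e2 : sg (Q + 2 + 3 + 3 * m 1) = -sg (Q + 3 + 3 * m 1) := by
    rw [show Q + 2 + 3 + 3 * m 1 = (Q + 3 + 3 * m 1) + 2 by ring, sg_add_two]
  have e3 : sg (R + 1 + 3 + 3 * (γ + 1)) = -sg (R + 2 + 3 + 3 * γ) := by
    rw [show R + 1 + 3 + 3 * (γ + 1) = (R + 2 + 3 + 3 * γ) + 2 by ring, sg_add_two]
  rw [e1, e2, e3]
  have n1 : sg (P + 3 + 3 * m 0) ≠ 0 := sg_even (by omega)
  have n2 : sg (Q + 3 + 3 * m 1) ≠ 0 := sg_even (by omega)
  have n3 : sg (R + 2 + 3 + 3 * γ) ≠ 0 := sg_even (by omega)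
  have p1 : 0 < h (P + 2) (m 0) := h_pos (P + 1) (m 0) hα' (by omega)
  have p2 : 0 < h (Q + 2) (m 1) := h_pos (Q + 1) (m 1) hβ' (by omega)
  have p3 : 0 < h (R + 2) γ := h_pos (R + 1) γ hγ2 (by omega)
  have key : -sg (P + 3 + 3 * m 0) * ↑(h (P + 2) (m 0)) * (-sg (Q + 3 + 3 * m 1) *
      ↑(h (Q + 2) (m 1))) * (sg (R + 2 + 3 + 3 * γ) * ↑(h (R + 2) γ)) +
      -sg (P + 3 + 3 * m 0) * ↑(h (P + 2) (m 0)) * (sg (Q + 3 + 3 * m 1) * ↑(h Q (m 1))) *
        (-sg (R + 2 + 3 + 3 * γ) * ↑(h (R + 1) (γ + 1))) +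
      sg (P + 3 + 3 * m 0) * ↑(h P (m 0)) * (-sg (Q + 3 + 3 * m 1) * ↑(h (Q + 2) (m 1))) *
        (-sg (R + 2 + 3 + 3 * γ) * ↑(h (R + 1) (γ + 1))) =
      (sg (P + 3 + 3 * m 0) * sg (Q + 3 + 3 * m 1) * sg (R + 2 + 3 + 3 * γ)) *
        ((h (P + 2) (m 0) * h (Q + 2) (m 1) * h (R + 2) γ +
          h (P + 2) (m 0) * h Q (m 1) * h (R + 1) (γ + 1) +
          h P (m 0) * h (Q + 2) (m 1) * h (R + 1) (γ + 1) : ℕ) : ℤ) := by
    push_cast
    ring
  rw [key]
  apply mul_ne_zero (mul_ne_zero (mul_ne_zero n1 n2) n3)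
  have : 0 < h (P + 2) (m 0) * h (Q + 2) (m 1) * h (R + 2) γ := by positivity
  have h4 : 0 < h (P + 2) (m 0) * h (Q + 2) (m 1) * h (R + 2) γ +
          h (P + 2) (m 0) * h Q (m 1) * h (R + 1) (γ + 1) +
          h P (m 0) * h (Q + 2) (m 1) * h (R + 1) (γ + 1) := by
    omega
  exact_mod_cast h4.ne'

/-- the monomial with given exponents -/
noncomputable def mon (a b c : ℕ) : Fin 3 →₀ ℕ := Finsupp.equivFunOnFinite.symm ![a, b, c]

lemma card_F (P Q R : ℕ) :
    ((P + 3) / 2) * ((Q + 3) / 2) * ((R + 1) / 2 + 1) ≤ (F P Q R).support.card := by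
  have h1 : (Finset.range ((P + 3) / 2) ×ˢ (Finset.range ((Q + 3) / 2) ×ˢ
      Finset.range ((R + 1) / 2 + 1))).card ≤ (F P Q R).support.card := by
    apply Finset.card_le_card_of_injOn
      (fun t => mon (P + 1 - 2 * t.1) (Q + 1 - 2 * t.2.1) ((R + 1 - 2 * t.2.2) + 1))
    · rintro ⟨i, j, k⟩ ht
      simp only [Finset.coe_product, Set.mem_prod, Finset.coe_range, Set.mem_Iio] at ht
      obtain ⟨hi, hj, hk⟩ := ht
      simp only [Finset.mem_coe, MvPolynomial.mem_support_iff]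
      apply coeff_F_ne P Q R _ (R + 1 - 2 * k) rfl
      · show (P + 1 - 2 * i + P + 1) % 2 = 0
        omega
      · show P + 1 - 2 * i ≤ P + 1
        omega
      · show (Q + 1 - 2 * j + Q + 1) % 2 = 0
        omega
      · show Q + 1 - 2 * j ≤ Q + 1
        omega
      · omega
      · omega
    · rintro ⟨i, j, k⟩ ht ⟨i', j', k'⟩ ht' heq
      simp only [Finset.coe_product, Set.mem_prod, Finset.coe_range, Set.mem_Iio] at ht ht'
      obtain ⟨hi, hj, hk⟩ := ht
      obtain ⟨hi', hj', hk'⟩ := ht'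
      have e0 : P + 1 - 2 * i = P + 1 - 2 * i' := DFunLike.congr_fun heq 0
      have e1 : Q + 1 - 2 * j = Q + 1 - 2 * j' := DFunLike.congr_fun heq 1
      have e2 : R + 1 - 2 * k + 1 = R + 1 - 2 * k' + 1 := DFunLike.congr_fun heq 2
      have f0 : i = i' := by omega
      have f1 : j = j' := by omega
      have f2 : k = k' := by omega
      rw [f0, f1, f2]
  refine le_trans (le_of_eq ?_) h1
  simp only [Finset.card_product, Finset.card_range]
  ring

end Lower

lemma bdd (n : ℕ) : BddAbove {k | ∃ L : List (Fin 2 × Bool), FreeGroup.IsCyclicallyReduced L ∧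
    L.length = n ∧ k = N (FreeGroup.mk L)} := by
  refine ⟨(n + 2) ^ 3, ?_⟩
  rintro k ⟨L, _, rfl, rfl⟩
  exact N_le L

/-- **`M(n) = Θ(n³)`.** Every word has exactly one trace polynomial (so that `N(w)` is the number of
its monomials), and for all `n ≥ 6` one has `n³ / 1728 ≤ M(n) ≤ (n + 2)³`. -/
theorem result :
    (∀ w : FreeGroup (Fin 2), ∃! f, IsTracePoly w f) ∧
    (∀ w : FreeGroup (Fin 2), IsTracePoly w (tracePoly w)) ∧
    (∀ n : ℕ, 6 ≤ n → (n : ℝ) ^ 3 / 1728 ≤ M n ∧ (M n : ℝ) ≤ ((n : ℝ) + 2) ^ 3) := by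
  refine ⟨fun w => ⟨tracePoly w, isTracePoly_tracePoly w, fun g hg => (tracePoly_eq hg).symm⟩,
    isTracePoly_tracePoly, fun n hn => ⟨?_, ?_⟩⟩
  · obtain ⟨P, hP⟩ : ∃ P, n / 3 = P + 2 := ⟨n / 3 - 2, by omega⟩
    obtain ⟨R, hR⟩ : ∃ R, n / 6 = R + 1 := ⟨n / 6 - 1, by omega⟩
    obtain ⟨Q, hQ⟩ : ∃ Q, n - 2 * (n / 6) - n / 3 = Q + 2 :=
      ⟨n - 2 * (n / 6) - n / 3 - 2, by omega⟩
    have hlen : (word (P + 2) (Q + 2) (R + 1)).length = n := by
      rw [word_length, ← hP, ← hR, ← hQ]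
      omega
    have h1 : N (FreeGroup.mk (word (P + 2) (Q + 2) (R + 1))) ≤ M n :=
      le_csSup (bdd n) ⟨_, word_cyc _ _ _, hlen, rfl⟩
    have h2 : ((P + 3) / 2) * ((Q + 3) / 2) * ((R + 1) / 2 + 1) ≤
        N (FreeGroup.mk (word (P + 2) (Q + 2) (R + 1))) := by
      unfold N
      rw [tracePoly_eq (isTracePoly_F P Q R)]
      exact card_F P Q R
    have i1 : n ≤ 12 * ((P + 3) / 2) := by omega
    have i2 : n ≤ 12 * ((Q + 3) / 2) := by omega
    have i3 : n ≤ 12 * ((R + 1) / 2 + 1) := by omega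
    have h3 : n * n * n ≤ 12 * ((P + 3) / 2) * (12 * ((Q + 3) / 2)) * (12 * ((R + 1) / 2 + 1)) :=
      Nat.mul_le_mul (Nat.mul_le_mul i1 i2) i3
    have h4 : n ^ 3 ≤ 1728 * M n := by
      calc n ^ 3 = n * n * n := by ring
        _ ≤ 12 * ((P + 3) / 2) * (12 * ((Q + 3) / 2)) * (12 * ((R + 1) / 2 + 1)) := h3
        _ = 1728 * (((P + 3) / 2) * ((Q + 3) / 2) * ((R + 1) / 2 + 1)) := by ring
        _ ≤ 1728 * M n := Nat.mul_le_mul_left _ (le_trans h2 h1)
    have h5 : (n : ℝ) ^ 3 ≤ 1728 * (M n : ℝ) := by exact_mod_cast h4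
    linarith
  · have h1 : M n ≤ (n + 2) ^ 3 := by
      apply csSup_le'
      rintro k ⟨L, _, rfl, rfl⟩
      exact N_le L
    exact_mod_cast h1

end Pool.Agent.Results.MP_81f2fa_al.CubicSupport
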